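import Pool.Agent.Helper42.TN.GoalsA
import Pool.Agent.Helper69.PM.CENU
import Pool.Agent.Helper15.PM.DENW
import Pool.Agent.Helper2.T3.SHN
import Pool.Agent.Helper66.T3.HTF

/-!
# Project TN (MP_a41896_nt), packet TN-HYPG: the centre data on a hypersurface
-/

set_option autoImplicit false
set_option linter.unusedSectionVars false

open MvPolynomial

namespace Pool.Agent.Helper66.TN

open WeierstrassCurve Height
open Pool.Agent.Helper29.BL Pool.Agent.Helper92.Ru Pool.Agent.Helper42.SG
open Pool.Agent.Helper65.SG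
open Pool.Agent.Helper68.VN hiding xs Good nz
open Pool.Agent.Helper68.T3 (gsup)
open Pool.Agent.Helper2.T3 (t_SHN shiftP_sum)
open Pool.Agent.Helper19.PM
open Pool.Agent.Helper42.TN
open Pool.Agent.Helper69.PM (v_nat nfK single_le isInt_prod)
open Pool.Agent.Helper66.T3.HTF (frpo)
open Pool.Agent.Helper62.SGB (plc_pos plc_mul plc_cst)

noncomputable section

section alg

variable {K : Type} [Field K] {σ : Type} [Fintype σ] [DecidableEq σ]

lemma exists_t [CharZero K] (D : ℕ) (g : MvPolynomial σ K) (h0 : g ≠ 0)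
    (hg : ∀ i, degreeOf i g ≤ D) :
    ∃ t : σ → ℕ, (∀ i, t i ≤ D) ∧ eval (fun i => (t i : K)) g ≠ 0 := by
  classical
  by_contra hc
  push Not at hc
  refine h0 (eq_zero_of_eval_zero_at_prod_finset g
    (fun _ => (Finset.range (D + 1)).image (fun n : ℕ => (n : K))) ?_ ?_)
  · intro i
    rw [Finset.card_image_of_injective _ Nat.cast_injective, Finset.card_range]
    have := hg i
    omega
  · intro x hx
    choose t ht using fun i => Finset.mem_image.mp (hx i)
    have h := hc t fun i => Nat.lt_succ_iff.mp (Finset.mem_range.mp (ht i).1)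
    have h2 : x = fun i => (t i : K) := funext fun i => (ht i).2.symm
    rw [h2]
    exact h

lemma deg_shiftP (ξ : σ → K) (g : MvPolynomial σ K) (D : ℕ) (i : σ) (hg : degreeOf i g ≤ D) :
    degreeOf i (shiftP ξ g) ≤ D := by
  rw [shiftP_sum]
  refine (degreeOf_sum_le _ _ _).trans (Finset.sup_le fun s hs => ?_)
  refine (degreeOf_C_mul_le _ _ _).trans ((degreeOf_prod_le _ _ _).trans ?_)
  have h1 : ∀ j ∈ (Finset.univ : Finset σ), degreeOf i ((X j + C (ξ j) : MvPolynomial σ K) ^ s j) ≤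
      if j = i then s i else 0 := by
    intro j _
    refine (degreeOf_pow_le _ _ _).trans ?_
    have h2 : degreeOf i (X j + C (ξ j) : MvPolynomial σ K) ≤ if j = i then 1 else 0 := by
      refine (degreeOf_add_le _ _ _).trans ?_
      rw [degreeOf_C, degreeOf_X]
      split_ifs with e1 e2 e3
      · simp
      · exact absurd e1.symm e2
      · exact absurd e3.symm e1
      · simp
    split_ifs at h2 ⊢ with e
    · subst e
      nlinarith
    · nlinarith
  refine (Finset.sum_le_sum h1).trans ?_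
  rw [Finset.sum_ite_eq' Finset.univ i, if_pos (Finset.mem_univ i)]
  exact (monomial_le_degreeOf i hs).trans hg

/-- the exponent with the entries `a i` -/
def ex (D : ℕ) (a : σ → Fin (D + 1)) : σ →₀ ℕ := Finsupp.equivFunOnFinite.symm fun i => (a i).val

lemma coeff_out (ξ : σ → K) (g : MvPolynomial σ K) (D : ℕ) (hg : ∀ i, degreeOf i g ≤ D)
    (γ : σ →₀ ℕ) : (∃ a : σ → Fin (D + 1), γ = ex D a) ∨ coeff γ (shiftP ξ g) = 0 := by
  by_cases h : ∀ i, γ i < D + 1
  · left
    refine ⟨fun i => ⟨γ i, h i⟩, ?_⟩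
    ext i
    simp [ex]
  · right
    push Not at h
    obtain ⟨i, hi⟩ := h
    by_contra hc
    have h1 := (monomial_le_degreeOf i (mem_support_iff.mpr hc)).trans
      (deg_shiftP ξ g D i (hg i))
    omega

end alg

section ht

variable {K : Type} [Field K] [NumberField K] {σ : Type} [Fintype σ] [DecidableEq σ]

lemma supp_nonempty (g : MvPolynomial σ K) (h0 : g ≠ 0) :
    (fun e : g.support => coeff e.1 g) ≠ 0 := by
  obtain ⟨s, hs⟩ := support_nonempty.mpr h0
  intro h
  have := congrFun h ⟨s, hs⟩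
  exact (mem_support_iff.mp hs) this

lemma PS_gsup (g : MvPolynomial σ K) (h0 : g ≠ 0) :
    PS (fun v => Real.log (gsup v g)) = Real.log (PH g) := by
  unfold gsup PH
  rw [PS_log_iSup (supp_nonempty g h0), logHeight_eq_log_mulHeight]

lemma FS_gsup (g : MvPolynomial σ K) (h0 : g ≠ 0) : FS (fun v => Real.log (gsup v g)) := by
  unfold gsup
  exact FS_log_iSup (supp_nonempty g h0)

lemma gsup_pos (v : AbsoluteValue K ℝ) (g : MvPolynomial σ K) (h0 : g ≠ 0) : 0 < gsup v g :=
  iSup_abv_pos v (supp_nonempty g h0)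

/-- the heights of the normalised Taylor coefficients -/
lemma ht_tay (D : ℕ) : ∃ C2 : ℝ, 1 ≤ C2 ∧ ∀ (g : MvPolynomial σ K) (t : σ → ℕ) (A : ℝ),
    0 ≤ A → g ≠ 0 → (∀ i, degreeOf i g ≤ D) → Real.log (PH g) ≤ A → (∀ i, t i ≤ D) →
    eval (fun i => (t i : K)) g ≠ 0 → ∀ γ,
    logHeight₁ (coeff γ (shiftP (fun i => (t i : K)) g) / eval (fun i => (t i : K)) g) ≤
      C2 * (1 + A) := by
  obtain ⟨B, hB, hS⟩ := t_SHN frpo K σ D
  have hDr : (1 : ℝ) ≤ (D : ℝ) + 1 := by
    have : (0 : ℝ) ≤ (D : ℝ) := Nat.cast_nonneg D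
    linarith
  set q : ℝ := (((D : ℝ) + 1) ^ Fintype.card σ) ^ D with hq
  have hq1 : 1 ≤ q := one_le_pow₀ (one_le_pow₀ hDr)
  have hB' : PlC (K := K) fun v => B v * cst v q := plc_mul hB (plc_cst hq1)
  have hps : 0 ≤ PS (fun v : AbsoluteValue K ℝ => Real.log (B v * cst v q)) :=
    PS_nonneg hB'.fin fun v => Real.log_nonneg (hB'.one_le v)
  refine ⟨PS (fun v => Real.log (B v * cst v q)) + 1, by linarith, ?_⟩
  intro g t A hA h0 hg hh ht hev γ
  set e0 : K := eval (fun i => (t i : K)) g with he0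
  have hb : ∀ (v : AbsoluteValue K ℝ) (γ : σ →₀ ℕ),
      v (coeff γ (shiftP (fun i => (t i : K)) g)) ≤ B v * cst v q * gsup v g := by
    intro v γ
    refine ((frpo K v σ).2.2 _ _ γ ((hS g _ hg).2.2 v)).trans ?_
    have h1 : (∏ i, Mv v ((t i : ℕ) : K)) ^ D ≤ cst v q := by
      rw [hq, cst_pow, cst_pow]
      refine pow_le_pow_left₀ (Finset.prod_nonneg fun i _ => (Mv_pos v _).le) ?_ _
      calc ∏ i, Mv v ((t i : ℕ) : K) ≤ ∏ _i : σ, cst v ((D : ℝ) + 1) := by
            refine Finset.prod_le_prod (fun i _ => (Mv_pos v _).le) fun i _ => ?_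
            refine max_le (one_le_cst v hDr) (v_nat v (t i) ?_)
            have : (t i : ℝ) ≤ D := by exact_mod_cast ht i
            linarith
        _ = _ := by rw [Finset.prod_const, Finset.card_univ]
    have h2 := gsup_pos v g h0
    have h3 : 0 < B v := plc_pos hB v
    calc B v * gsup v g * (∏ i, Mv v ((t i : ℕ) : K)) ^ D ≤ B v * gsup v g * cst v q := by
          gcongr
      _ = _ := by ring
  have h0e : coeff 0 (shiftP (fun i => (t i : K)) g) = e0 := (hS g _ hg).1
  have hM : ∀ v : AbsoluteValue K ℝ, Real.log (Mv v (coeff γ (shiftP (fun i => (t i : K)) g) / e0)) ≤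
      Real.log (B v * cst v q) + Real.log (gsup v g) - Real.log (v e0) := by
    intro v
    have h1 : 0 < v e0 := v.pos hev
    have h2 : 0 < B v * cst v q := plc_pos hB' v
    have h3 := gsup_pos v g h0
    rw [← Real.log_mul h2.ne' h3.ne', ← Real.log_div (mul_pos h2 h3).ne' h1.ne']
    refine Real.log_le_log (Mv_pos v _) (max_le ?_ ?_)
    · rw [one_le_div h1, ← h0e]
      exact hb v 0
    · rw [map_div₀]
      exact div_le_div_of_nonneg_right (hb v γ) h1.le
  rw [← PS_log_Mv]
  have h4 := PS_mono (FS_log_Mv _) ((hB'.fin.add (FS_gsup g h0)).sub (FS_log hev)) hM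
  rw [PS_sub (hB'.fin.add (FS_gsup g h0)) (FS_log hev), PS_add hB'.fin (FS_gsup g h0),
    PS_gsup g h0, PS_log hev] at h4
  nlinarith

end ht

section count

variable {σ : Type} [Fintype σ] [DecidableEq σ]

lemma card_D (N D : ℕ) : ((Finset.univ : Finset (Fin (N + 1))).filter
    (fun x => N < x.val + D)).card ≤ D := by
  have h : ((Finset.univ : Finset (Fin (N + 1))).filter (fun x => N < x.val + D)).card ≤
      (Finset.range D).card := by
    refine Finset.card_le_card_of_injOn (fun x => N - x.val) ?_ ?_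
    · intro x hx
      have h1 := (Finset.mem_filter.mp hx).2
      have h2 := x.isLt
      rw [Finset.mem_coe, Finset.mem_range]
      show N - x.val < D
      omega
    · intro x _ y _ h
      have h1 := x.isLt
      have h2 := y.isLt
      have h3 : N - x.val = N - y.val := h
      exact Fin.ext (by omega)
  rwa [Finset.card_range] at h

lemma card_k (N k : ℕ) : ((Finset.univ : Finset (Fin (N + 1))).filter
    (fun x => x.val < k)).card ≤ k := by
  have h : ((Finset.univ : Finset (Fin (N + 1))).filter (fun x => x.val < k)).card ≤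
      (Finset.range k).card := by
    refine Finset.card_le_card_of_injOn (fun x => x.val) ?_ ?_
    · intro x hx
      exact Finset.mem_coe.mpr (Finset.mem_range.mpr (Finset.mem_filter.mp hx).2)
    · intro x _ y _ h
      exact Fin.ext h
  rwa [Finset.card_range] at h

lemma card_one (N D : ℕ) (i : σ) : ((Finset.univ : Finset (σ → Fin (N + 1))).filter
    (fun τ => N < (τ i).val + D)).card ≤ D * (N + 1) ^ (Fintype.card σ - 1) := by
  classical
  have h1 : (Finset.univ : Finset (σ → Fin (N + 1))).filter (fun τ => N < (τ i).val + D) ⊆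
      Fintype.piFinset (fun j : σ => if j = i then
        (Finset.univ : Finset (Fin (N + 1))).filter (fun x => N < x.val + D)
        else Finset.univ) := by
    intro τ hτ
    rw [Fintype.mem_piFinset]
    intro j
    split_ifs with e
    · subst e
      exact Finset.mem_filter.mpr ⟨Finset.mem_univ _, (Finset.mem_filter.mp hτ).2⟩
    · exact Finset.mem_univ _
  refine (Finset.card_le_card h1).trans ?_
  rw [Fintype.card_piFinset, ← Finset.mul_prod_erase _ _ (Finset.mem_univ i), if_pos rfl]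
  refine Nat.mul_le_mul (card_D N D) ?_
  refine le_of_eq ?_
  rw [← Finset.card_univ (α := σ), ← Finset.card_erase_of_mem (Finset.mem_univ i)]
  rw [← Finset.prod_const]
  refine Finset.prod_congr rfl fun j hj => ?_
  rw [if_neg (Finset.ne_of_mem_erase hj), Finset.card_univ, Fintype.card_fin]

lemma card_two (N D k : ℕ) (i i1 : σ) (hi : i ≠ i1) :
    ((Finset.univ : Finset (σ → Fin (N + 1))).filter
    (fun τ => N < (τ i).val + D ∧ (τ i1).val < k)).card ≤
      D * k * (N + 1) ^ (Fintype.card σ - 2) := by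
  classical
  have h1 : (Finset.univ : Finset (σ → Fin (N + 1))).filter
      (fun τ => N < (τ i).val + D ∧ (τ i1).val < k) ⊆
      Fintype.piFinset (fun j : σ => if j = i then
        (Finset.univ : Finset (Fin (N + 1))).filter (fun x => N < x.val + D)
        else if j = i1 then (Finset.univ : Finset (Fin (N + 1))).filter (fun x => x.val < k)
        else Finset.univ) := by
    intro τ hτ
    rw [Fintype.mem_piFinset]
    intro j
    split_ifs with e e'
    · subst e
      exact Finset.mem_filter.mpr ⟨Finset.mem_univ _, (Finset.mem_filter.mp hτ).2.1⟩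
    · subst e'
      exact Finset.mem_filter.mpr ⟨Finset.mem_univ _, (Finset.mem_filter.mp hτ).2.2⟩
    · exact Finset.mem_univ _
  refine (Finset.card_le_card h1).trans ?_
  have hm : i1 ∈ Finset.univ.erase i := Finset.mem_erase.mpr ⟨hi.symm, Finset.mem_univ _⟩
  rw [Fintype.card_piFinset, ← Finset.mul_prod_erase _ _ (Finset.mem_univ i), if_pos rfl,
    ← Finset.mul_prod_erase _ _ hm, if_neg hi.symm, if_pos rfl, ← mul_assoc]
  refine Nat.mul_le_mul (Nat.mul_le_mul (card_D N D) (card_k N k)) ?_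
  refine le_of_eq ?_
  have hc : ((Finset.univ.erase i).erase i1).card = Fintype.card σ - 2 := by
    rw [Finset.card_erase_of_mem hm, Finset.card_erase_of_mem (Finset.mem_univ i),
      Finset.card_univ]
    omega
  rw [← hc, ← Finset.prod_const]
  refine Finset.prod_congr rfl fun j hj => ?_
  have hj1 := Finset.mem_erase.mp hj
  rw [if_neg (Finset.ne_of_mem_erase hj1.2), if_neg hj1.1, Finset.card_univ, Fintype.card_fin]

/-- the index set -/
abbrev TT (σ : Type) (N D : ℕ) : Type := {τ : σ → Fin (N + 1) // ∃ i, N < (τ i).val + D}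

lemma card_TT (N D : ℕ) : Fintype.card (TT σ N D) ≤
    (Fintype.card σ * (D + 1) ^ 2 + 1) * (N + 1) ^ (Fintype.card σ - 1) := by
  classical
  have h1 : Fintype.card (TT σ N D) ≤ Fintype.card σ * (D * (N + 1) ^ (Fintype.card σ - 1)) := by
    rw [Fintype.card_subtype]
    have h2 : (Finset.univ : Finset (σ → Fin (N + 1))).filter (fun τ => ∃ i, N < (τ i).val + D) ⊆
        Finset.univ.biUnion fun i : σ => (Finset.univ : Finset (σ → Fin (N + 1))).filter
          (fun τ => N < (τ i).val + D) := by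
      intro τ hτ
      obtain ⟨i, hi⟩ := (Finset.mem_filter.mp hτ).2
      exact Finset.mem_biUnion.mpr ⟨i, Finset.mem_univ _,
        Finset.mem_filter.mpr ⟨Finset.mem_univ _, hi⟩⟩
    refine (Finset.card_le_card h2).trans ?_
    refine (Finset.card_biUnion_le_card_mul _ _ _ fun i _ => card_one N D i).trans ?_
    rw [Finset.card_univ]
  refine h1.trans ?_
  rw [← mul_assoc]
  refine Nat.mul_le_mul_right _ ?_
  nlinarith [Nat.zero_le (Fintype.card σ * D * D), Nat.zero_le (Fintype.card σ * D)]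

lemma bad_TT (N D k : ℕ) (i1 : σ) (hm : 2 ≤ Fintype.card σ) :
    Nat.card {t : TT σ N D // (t.1 i1).val < k} ≤
    (Fintype.card σ * (D + 1) ^ 2 + 1) * k * (N + 1) ^ (Fintype.card σ - 2) := by
  classical
  have h0 : Nat.card {t : TT σ N D // (t.1 i1).val < k} ≤
      ((Finset.univ : Finset (σ → Fin (N + 1))).filter
        (fun τ => (∃ i, N < (τ i).val + D) ∧ (τ i1).val < k)).card := by
    rw [Nat.card_eq_fintype_card, ← Fintype.card_coe]
    refine Fintype.card_le_of_injective (fun t => ⟨t.1.1,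
      Finset.mem_filter.mpr ⟨Finset.mem_univ _, t.1.2, t.2⟩⟩) ?_
    intro t t' h
    have h1 := congrArg Subtype.val h
    exact Subtype.ext (Subtype.ext h1)
  have h2 : ∀ i : σ, ((Finset.univ : Finset (σ → Fin (N + 1))).filter
      (fun τ => N < (τ i).val + D ∧ (τ i1).val < k)).card ≤
      (D + 1) ^ 2 * k * (N + 1) ^ (Fintype.card σ - 2) := by
    intro i
    by_cases hi : i = i1
    · subst hi
      by_cases hk : N + 1 ≤ k * (D + 1)
      · refine (Finset.card_le_card (t := (Finset.univ : Finset (σ → Fin (N + 1))).filter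
          (fun τ => N < (τ i).val + D)) ?_).trans ((card_one N D i).trans ?_)
        · intro τ hτ
          exact Finset.mem_filter.mpr ⟨Finset.mem_univ _, (Finset.mem_filter.mp hτ).2.1⟩
        · have e1 : Fintype.card σ - 1 = (Fintype.card σ - 2) + 1 := by omega
          rw [e1, pow_succ, ← mul_assoc]
          calc D * (N + 1) ^ (Fintype.card σ - 2) * (N + 1)
              ≤ D * (N + 1) ^ (Fintype.card σ - 2) * (k * (D + 1)) := Nat.mul_le_mul_left _ hk
            _ ≤ (D + 1) * (N + 1) ^ (Fintype.card σ - 2) * (k * (D + 1)) :=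
                Nat.mul_le_mul_right _ (Nat.mul_le_mul_right _ (Nat.le_succ D))
            _ = _ := by ring
      · rw [Finset.card_eq_zero.mpr]
        · exact Nat.zero_le _
        · refine Finset.filter_eq_empty_iff.mpr fun τ _ h => hk ?_
          obtain ⟨h3, h4⟩ := h
          have h5 : 1 ≤ k := by omega
          nlinarith [Nat.mul_le_mul_right D h5]
    · refine (card_two N D k i i1 hi).trans ?_
      refine Nat.mul_le_mul_right _ (Nat.mul_le_mul_right _ ?_)
      nlinarith
  refine h0.trans ?_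
  have h3 : (Finset.univ : Finset (σ → Fin (N + 1))).filter
      (fun τ => (∃ i, N < (τ i).val + D) ∧ (τ i1).val < k) ⊆
      Finset.univ.biUnion fun i : σ => (Finset.univ : Finset (σ → Fin (N + 1))).filter
        (fun τ => N < (τ i).val + D ∧ (τ i1).val < k) := by
    intro τ hτ
    obtain ⟨⟨i, hi⟩, hk⟩ := (Finset.mem_filter.mp hτ).2
    exact Finset.mem_biUnion.mpr ⟨i, Finset.mem_univ _,
      Finset.mem_filter.mpr ⟨Finset.mem_univ _, hi, hk⟩⟩
  refine (Finset.card_le_card h3).trans ?_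
  refine (Finset.card_biUnion_le_card_mul _ _ _ fun i _ => h2 i).trans ?_
  rw [Finset.card_univ, ← mul_assoc, ← mul_assoc]
  refine Nat.mul_le_mul_right _ (Nat.mul_le_mul_right _ ?_)
  exact Nat.le_succ _

end count

section nm

variable {K : Type} [Field K] {σ : Type} [Fintype σ] [DecidableEq σ]

/-- the functions of the block -/
def EE (D N : ℕ) (tt : σ → ℕ) (τ : TT σ N D) : MvPolynomial σ K :=
  ∏ i, (X i - C (tt i : K)) ^ (τ.1 i).val

lemma wH_prod (i1 : σ) (a : σ → ℝ) (u : Unit) : ∏ i, a i ^ wH i1 u i = a i1 := by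
  unfold wH
  rw [Finset.prod_eq_single i1]
  · simp
  · intro b _ hb
    simp [hb]
  · intro h
    exact absurd (Finset.mem_univ i1) h

lemma nm_E (D N : ℕ) (tt : σ → ℕ) (ht : ∀ i, tt i ≤ D) (i1 : σ) (v : AbsoluteValue K ℝ)
    (A : Type) [CommRing A] [Algebra K A] (Nm : A → ℝ → Prop) (hN : NFr v Nm) (X' : σ → A)
    (a : σ → ℝ) (ρ : ℝ) (ha : ∀ i, 1 ≤ a i) (hρ : 0 < ρ)
    (hX : ∀ i, Nm (X' i) (a i))
    (hg : ∀ j, Nm (aeval X' (cenH i1 (tt i1 : K) j)) (ρ * ∏ i, a i ^ wH i1 j i))
    (τ : TT σ N D) :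
    Nm (aeval X' (EE D N tt τ : MvPolynomial σ K))
      ((cst v ((D : ℝ) + 1) ^ N) ^ Fintype.card σ * (∏ i, a i ^ N) * ρ ^ (τ.1 i1).val) := by
  obtain ⟨-, -, hpow, hprod, -⟩ := Pool.Agent.Helper35.SGC1.nfb K v A Nm hN
  have hD1 : (1 : ℝ) ≤ (D : ℝ) + 1 := by
    have : (0 : ℝ) ≤ (D : ℝ) := Nat.cast_nonneg D
    linarith
  have hc1 : 1 ≤ cst v ((D : ℝ) + 1) := one_le_cst v hD1
  have h1 : ∀ i ∈ (Finset.univ : Finset σ), Nm (aeval X' ((X i - C (tt i : K)) ^ (τ.1 i).val))
      (cst v ((D : ℝ) + 1) ^ N * a i ^ N * (if i = i1 then ρ ^ (τ.1 i1).val else 1)) := by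
    intro i _
    have hai := ha i
    have hle : (τ.1 i).val ≤ N := Nat.lt_succ_iff.mp (τ.1 i).isLt
    have h4 : cst v ((D : ℝ) + 1) ^ (τ.1 i).val ≤ cst v ((D : ℝ) + 1) ^ N :=
      pow_le_pow_right₀ hc1 hle
    have h5 : a i ^ (τ.1 i).val ≤ a i ^ N := pow_le_pow_right₀ hai hle
    rw [map_pow, map_sub, aeval_X, aeval_C]
    split_ifs with e
    · subst e
      have h2 := hg ()
      rw [wH_prod] at h2
      unfold cenH at h2
      rw [map_sub, aeval_X, aeval_C] at h2
      refine hN.mono _ _ _ (hpow _ _ h2 (τ.1 i).val) ?_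
      rw [mul_pow]
      calc ρ ^ (τ.1 i).val * a i ^ (τ.1 i).val
          = 1 * a i ^ (τ.1 i).val * ρ ^ (τ.1 i).val := by ring
        _ ≤ cst v ((D : ℝ) + 1) ^ N * a i ^ N * ρ ^ (τ.1 i).val := by
          have h6 : 1 ≤ cst v ((D : ℝ) + 1) ^ N := one_le_pow₀ hc1
          gcongr
    · have h2 : Nm (X' i - algebraMap K A (tt i : K)) (cst v ((D : ℝ) + 1) * a i) := by
        have hk := hN.const (-(tt i : K))
        rw [map_neg, v.map_neg] at hk
        rw [sub_eq_add_neg]
        have hti : (tt i : ℝ) ≤ D := by exact_mod_cast ht i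
        by_cases hv : IsNonarchimedean v
        · refine hN.mono _ _ _ (hN.max hv _ _ _ _ (hX i) hk) ?_
          rw [cst_of_nonarch hv, one_mul]
          have := v_nat v (tt i) (c := (D : ℝ)) hti
          rw [cst_of_nonarch hv] at this
          exact max_le le_rfl (this.trans hai)
        · refine hN.mono _ _ _ (hN.add _ _ _ _ (hX i) hk) ?_
          have := v_nat v (tt i) (c := (D : ℝ)) hti
          rw [cst_of_not_nonarch hv] at this
          rw [cst_of_not_nonarch hv]
          have h0D : (0 : ℝ) ≤ D := Nat.cast_nonneg D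
          nlinarith
      refine hN.mono _ _ _ (hpow _ _ h2 (τ.1 i).val) ?_
      rw [mul_pow, mul_one]
      gcongr
  have h2 := hprod σ Finset.univ (fun i => aeval X' ((X i - C (tt i : K)) ^ (τ.1 i).val))
    (fun i => cst v ((D : ℝ) + 1) ^ N * a i ^ N * (if i = i1 then ρ ^ (τ.1 i1).val else 1)) h1
  unfold EE
  rw [map_prod]
  refine hN.mono _ _ _ h2 (le_of_eq ?_)
  rw [Finset.prod_mul_distrib, Finset.prod_mul_distrib, Finset.prod_const, Finset.card_univ,
    Finset.prod_ite_eq' Finset.univ i1, if_pos (Finset.mem_univ i1)]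

lemma exp_sum (D N : ℕ) (tt : σ → ℕ) (R : (σ → ℕ) → K) (A : Type) [CommRing A] [Algebra K A]
    (X' : σ → A) :
    ∑ τ ∈ (box σ N).filter (fun τ => ∃ i, N < τ i + D),
      algebraMap K A (R τ) * ∏ i, (X' i - (tt i : A)) ^ τ i =
    ∑ τ : TT σ N D, algebraMap K A (R fun i => (τ.1 i).val) *
      aeval X' (EE D N tt τ : MvPolynomial σ K) := by
  classical
  symm
  refine Finset.sum_bij (fun τ _ => fun i => (τ.1 i).val) ?_ ?_ ?_ ?_
  · intro τ _
    refine Finset.mem_filter.mpr ⟨Fintype.mem_piFinset.mpr fun i => Finset.mem_range.mpr ?_, τ.2⟩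
    exact (τ.1 i).isLt
  · intro τ _ τ' _ h
    exact Subtype.ext (funext fun i => Fin.ext (congrFun h i))
  · intro τ hτ
    obtain ⟨h1, h2⟩ := Finset.mem_filter.mp hτ
    have h3 : ∀ i, τ i < N + 1 := fun i => Finset.mem_range.mp (Fintype.mem_piFinset.mp h1 i)
    exact ⟨⟨fun i => ⟨τ i, h3 i⟩, h2⟩, Finset.mem_univ _, rfl⟩
  · intro τ _
    congr 1
    unfold EE
    rw [map_prod]
    refine Finset.prod_congr rfl fun i _ => ?_
    rw [map_pow, map_sub, aeval_X, aeval_C, map_natCast]

end nm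

theorem t_HYPG (hR : HYPR) : HYPG := by
  intro K _ _ σ _ _ D hm2
  obtain ⟨c1, hc1, hR⟩ := hR D (Fintype.card σ)
  obtain ⟨C0, hC0, hDn⟩ := Pool.Agent.Helper15.PM.t_DENW K
  obtain ⟨C2, hC21, hht⟩ := ht_tay (K := K) (σ := σ) D
  have hDr : (1 : ℝ) ≤ (D : ℝ) + 1 := by
    have : (0 : ℝ) ≤ (D : ℝ) := Nat.cast_nonneg D
    linarith
  have hc1r : (1 : ℝ) ≤ (c1 : ℝ) := by exact_mod_cast hc1
  set m := Fintype.card σ with hm
  set TW : ℝ := (totalWeight K : ℝ) with hTW
  have hTW0 : 0 ≤ TW := Nat.cast_nonneg _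
  set b0 : ℝ := (c1 : ℝ) * ((D : ℝ) + 1) ^ m with hb0
  have hDm : (1 : ℝ) ≤ ((D : ℝ) + 1) ^ m := one_le_pow₀ hDr
  have hb01 : 1 ≤ b0 := by
    rw [hb0]
    nlinarith
  have hlb0 : 0 ≤ Real.log b0 := Real.log_nonneg hb01
  have hC20 : 0 ≤ C2 := by linarith
  set nY : ℝ := (Fintype.card (σ → Fin (D + 1)) : ℝ) with hnY
  have hnY0 : 0 ≤ nY := Nat.cast_nonneg _
  set L0 : ℝ := nY * C2 with hL0
  have hL00 : 0 ≤ L0 := by positivity
  set CC : ℝ := m * C0 * L0 + m * L0 + m * C0 * L0 + (TW + 1) * Real.log b0 with hCC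
  have hCC0 : 0 ≤ CC := by positivity
  refine ⟨m * (D + 1) ^ 2 + 1, CC, by omega, hCC0, fun g i1 A hA hg0 hg hh => ?_⟩
  obtain ⟨tt, htt, htt0⟩ := exists_t D g hg0 hg
  set e0 : K := eval (fun i => (tt i : K)) g with he0
  set y : (σ → Fin (D + 1)) → K := fun a =>
    coeff (ex D a) (shiftP (fun i => (tt i : K)) g) / e0 with hy
  have hyh : ∀ a, logHeight₁ (y a) ≤ C2 * (1 + A) := fun a =>
    hht g tt A hA hg0 hg hh htt htt0 (ex D a)
  have hsum : ∑ a, logHeight₁ (y a) ≤ L0 * (1 + A) := by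
    calc ∑ a, logHeight₁ (y a) ≤ ∑ _a : (σ → Fin (D + 1)), C2 * (1 + A) :=
          Finset.sum_le_sum fun a _ => hyh a
      _ = L0 * (1 + A) := by
          rw [Finset.sum_const, Finset.card_univ, nsmul_eq_mul, hL0, hnY]
          ring
  choose dy hdy0 hdyle hdyint using fun a => (hDn (y a)).1
  have hpl := fun a => (hDn (y a)).2
  set Pd : ℕ := ∏ a, dy a with hPd
  have hPd0 : 0 < Pd := Finset.prod_pos fun a _ => hdy0 a
  have hPdle : (Pd : ℝ) ≤ Real.exp (C0 * (L0 * (1 + A))) := by
    rw [hPd]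
    push_cast
    calc ∏ a, (dy a : ℝ) ≤ ∏ a, Real.exp (C0 * logHeight₁ (y a)) :=
          Finset.prod_le_prod (fun a _ => Nat.cast_nonneg _) fun a _ => hdyle a
      _ = Real.exp (C0 * ∑ a, logHeight₁ (y a)) := by
          rw [← Real.exp_sum, Finset.mul_sum]
      _ ≤ _ := Real.exp_le_exp.mpr (mul_le_mul_of_nonneg_left hsum hC0)
  have hPdint : ∀ a, IsIntegral ℤ ((Pd : K) * y a) := fun a => isInt_prod dy y hdyint a
  set P : AbsoluteValue K ℝ → ℝ := fun v => ∏ a, Mv v (y a) with hP
  have hP1 : ∀ v, 1 ≤ P v := fun v => Finset.one_le_prod fun a _ => one_le_Mv v _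
  have hlP : ∀ v, Real.log (P v) = ∑ a, Real.log (Mv v (y a)) := fun v =>
    Real.log_prod fun a _ => (Mv_pos v _).ne'
  have hFP : FS (fun v => Real.log (P v)) := by
    simp only [hlP]
    exact FS.sum _ fun a _ => FS_log_Mv _
  have hPSP : PS (fun v => Real.log (P v)) ≤ L0 * (1 + A) := by
    simp only [hlP]
    rw [PS_sum _ fun a _ => FS_log_Mv _]
    simpa only [PS_log_Mv] using hsum
  have hPpl : ∀ φ : K →+* ℂ, P (NumberField.place φ) ≤ Real.exp (C0 * (L0 * (1 + A))) := by
    intro φ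
    calc P (NumberField.place φ) ≤ ∏ a, Real.exp (C0 * logHeight₁ (y a)) :=
          Finset.prod_le_prod (fun a _ => (Mv_pos _ _).le) fun a _ => hpl a φ
      _ = Real.exp (C0 * ∑ a, logHeight₁ (y a)) := by
          rw [← Real.exp_sum, Finset.mul_sum]
      _ ≤ _ := Real.exp_le_exp.mpr (mul_le_mul_of_nonneg_left hsum hC0)
  set G : AbsoluteValue K ℝ → ℝ := fun v => cst v b0 * P v ^ m with hG
  have hcb1 : ∀ v : AbsoluteValue K ℝ, 1 ≤ cst v b0 := fun v => one_le_cst v hb01
  have hlG : ∀ v, Real.log (G v) = Real.log (cst v b0) + m * Real.log (P v) := by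
    intro v
    have h1 : cst v b0 ≠ 0 := by linarith [hcb1 v]
    have h2 : P v ^ m ≠ 0 := pow_ne_zero _ (by linarith [hP1 v])
    rw [hG]
    simp only
    rw [Real.log_mul h1 h2, Real.log_pow]
  have hG1 : ∀ v, 1 ≤ G v := fun v => by
    have h1 := hcb1 v
    have h2 := one_le_pow₀ (hP1 v) (n := m)
    have : 1 * 1 ≤ cst v b0 * P v ^ m := by gcongr
    simpa using this
  have hFG : FS (fun v => Real.log (G v)) := by
    simp only [hlG]
    exact (FS_log_cst _).add (hFP.const_mul _)
  have hyP : ∀ v a, v (y a) ≤ P v := fun v a =>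
    (le_max_right _ _).trans (single_le (fun a => Mv v (y a)) (fun a => one_le_Mv v _) a)
  have hcP : ∀ (v : AbsoluteValue K ℝ) (γ : σ →₀ ℕ),
      v (coeff γ (shiftP (fun i => (tt i : K)) g) / e0) ≤ P v := by
    intro v γ
    rcases coeff_out (fun i => (tt i : K)) g D hg γ with ⟨a, rfl⟩ | h
    · exact hyP v a
    · rw [h, zero_div, map_zero]
      linarith [hP1 v]
  have hcd : ∀ γ : σ →₀ ℕ,
      IsIntegral ℤ ((Pd : K) * (coeff γ (shiftP (fun i => (tt i : K)) g) / e0)) := by
    intro γ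
    rcases coeff_out (fun i => (tt i : K)) g D hg γ with ⟨a, rfl⟩ | h
    · exact hPdint a
    · rw [h, zero_div, mul_zero]
      exact isIntegral_zero
  have h1A : (0 : ℝ) ≤ 1 + A := by linarith
  have hm0 : (0 : ℝ) ≤ (m : ℝ) := Nat.cast_nonneg m
  refine ⟨tt i1, Pd ^ m, G, htt i1, pow_pos hPd0 _, ?_, ⟨hG1, hFG⟩, ?_, ?_, fun N => ?_⟩
  · push_cast
    calc (Pd : ℝ) ^ m ≤ Real.exp (C0 * (L0 * (1 + A))) ^ m := by gcongr
      _ = Real.exp ((m * C0 * L0) * (1 + A)) := by
          rw [← Real.exp_nat_mul]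
          ring_nf
      _ ≤ _ := by
          refine Real.exp_le_exp.mpr (mul_le_mul_of_nonneg_right ?_ h1A)
          rw [hCC]
          have e1 : 0 ≤ (m : ℝ) * L0 := by positivity
          have e2 : 0 ≤ (m : ℝ) * C0 * L0 := by positivity
          have e3 : 0 ≤ (TW + 1) * Real.log b0 := by positivity
          linarith
  · simp only [hlG]
    rw [PS_add (FS_log_cst _) (hFP.const_mul _), PS_const_mul]
    have e0 := PS_log_cst (K := K) hb01
    rw [← hTW] at e0
    have e1 : (m : ℝ) * PS (fun v => Real.log (P v)) ≤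
        (m : ℝ) * (L0 * (1 + A)) := mul_le_mul_of_nonneg_left hPSP (by positivity)
    have e2 : 0 ≤ (m : ℝ) * C0 * L0 * (1 + A) := by positivity
    have e4 : 0 ≤ Real.log b0 * (1 + A) := by positivity
    have e5 : 0 ≤ TW * Real.log b0 * A := by positivity
    rw [hCC]
    nlinarith
  · intro φ
    have e1 : cst (NumberField.place φ) b0 ≤ b0 := by
      unfold cst
      split_ifs
      · exact hb01
      · exact le_rfl
    calc G (NumberField.place φ)
        ≤ b0 * Real.exp (C0 * (L0 * (1 + A))) ^ m := by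
          have e2 := hPpl φ
          have e3 := hP1 (NumberField.place φ)
          rw [hG]
          simp only
          gcongr
      _ = Real.exp (Real.log b0 + m * (C0 * (L0 * (1 + A)))) := by
          rw [Real.exp_add, Real.exp_log (by linarith), ← Real.exp_nat_mul]
      _ ≤ _ := by
          refine Real.exp_le_exp.mpr ?_
          rw [hCC]
          have e2 : 0 ≤ (m : ℝ) * C0 * L0 * (1 + A) := by positivity
          have e3 : 0 ≤ (m : ℝ) * L0 * (1 + A) := by positivity
          have e4 : 0 ≤ Real.log b0 * A := by positivity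
          have e5 : 0 ≤ TW * Real.log b0 * (1 + A) := by positivity
          nlinarith
  obtain ⟨R, hR1, hR2, hR3⟩ := hR K σ g tt N rfl hg htt htt0
  refine ⟨TT σ N D, inferInstance, fun τ => (τ.1 i1).val, fun τ => EE D N tt τ,
    fun τ s => R s fun i => (τ.1 i).val, ⟨?_, ?_, ?_, ?_, ?_⟩, ?_⟩
  · exact card_TT N D
  · intro k
    exact bad_TT N D k i1 hm2
  · intro v τ s
    refine (hR2 v (P v) s _ (hP1 v) (hcP v)).trans ?_
    have h1 : cst v (c1 : ℝ) ≤ cst v b0 := by
      refine cst_mono v ?_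
      rw [hb0]
      nlinarith
    have h3 := hP1 v
    have h4 : 0 ≤ cst v (c1 : ℝ) := by linarith [one_le_cst v hc1r]
    rw [hG]
    simp only
    gcongr
  · intro τ s
    have h1 := hR3 Pd s (fun i => (τ.1 i).val) hcd
    rw [pow_mul] at h1
    push_cast
    exact h1
  · intro A' _ _ X' hX' s hs
    rw [hR1 A' X' hX' s (Fintype.mem_piFinset.mpr fun i => Finset.mem_range.mpr
      (Nat.lt_succ_of_le (hs i)))]
    exact exp_sum D N tt (fun τ => R s τ) A' X'
  · intro v A' _ _ Nm hN X' a ρ ha hρ hρ1 hX hgN τ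
    refine hN.mono _ _ _ (nm_E D N tt htt i1 v A' Nm hN X' a ρ ha hρ hX hgN τ) ?_
    have hc : 1 ≤ cst v ((D : ℝ) + 1) := one_le_cst v hDr
    have h2 : (cst v ((D : ℝ) + 1) ^ N) ^ m ≤ G v ^ (N + 1) := by
      calc (cst v ((D : ℝ) + 1) ^ N) ^ m = (cst v ((D : ℝ) + 1) ^ m) ^ N := by
            rw [← pow_mul, ← pow_mul, mul_comm N m]
        _ ≤ (cst v ((D : ℝ) + 1) ^ m) ^ (N + 1) :=
            pow_le_pow_right₀ (one_le_pow₀ hc) (by omega)
        _ ≤ G v ^ (N + 1) := by
            have h1 : cst v ((D : ℝ) + 1) ^ m ≤ cst v b0 := by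
              rw [← cst_pow]
              refine cst_mono v ?_
              rw [hb0]
              nlinarith
            have h2 : 1 ≤ P v ^ m := one_le_pow₀ (hP1 v)
            have h3 : cst v ((D : ℝ) + 1) ^ m ≤ G v := by
              calc cst v ((D : ℝ) + 1) ^ m ≤ cst v b0 * 1 := by rw [mul_one]; exact h1
                _ ≤ cst v b0 * P v ^ m := by
                  have := hcb1 v
                  gcongr
            gcongr
    have h3 : 0 ≤ ∏ i, a i ^ N := Finset.prod_nonneg fun i _ => by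
      have := ha i
      positivity
    rw [← hm]
    gcongr

end

end Pool.Agent.Helper66.TN
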